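import Pool.Agent.Y361.WHS.Factor

/-!
# The weighted Hajnal-Szemeredi threshold for `K_r`-factors

Proof of the formula `δ(r,t) = 1/r + (1 - 1/r) t` for all `r ≥ 2` and `t ∈ (0,1]`.
-/

set_option autoImplicit false

namespace Pool.Agent.Results.MP_acd470_co.Threshold

open Finset Filter Topology
open Pool.Agent.Y361.WHS Pool.Agent.FracEM.PMT

/-! ## Definitions -/

/-- `w` is an edge weighting of `K_n` on the vertex set `Fin n`: every edge, i.e. every unordered
pair of distinct vertices, has a weight in `[0,1]` (the values of `w` at loops are never used). -/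
def IsWeighting {n : ℕ} (w : Sym2 (Fin n) → ℝ) : Prop :=
  ∀ e : Sym2 (Fin n), ¬ e.IsDiag → 0 ≤ w e ∧ w e ≤ 1

/-- The weighted degree of the vertex `v`: the sum of the weights of the edges at `v`. -/
noncomputable def wdeg {n : ℕ} (w : Sym2 (Fin n) → ℝ) (v : Fin n) : ℝ :=
  ∑ u ∈ univ.erase v, w s(v, u)

/-- The minimum weighted degree. -/
noncomputable def minDeg {n : ℕ} (w : Sym2 (Fin n) → ℝ) : ℝ := ⨅ v : Fin n, wdeg w v

/-- The weight of the complete subgraph with vertex set `S`: the sum of the weights of its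
edges. -/
noncomputable def cliqueWt {n : ℕ} (w : Sym2 (Fin n) → ℝ) (S : Finset (Fin n)) : ℝ :=
  ∑ e ∈ S.sym2 with ¬ e.IsDiag, w e

/-- The partition `P` of the vertex set is a `K_r`-factor: every part has exactly `r` vertices. -/
def IsFactor {n : ℕ} (r : ℕ) (P : Finpartition (univ : Finset (Fin n))) : Prop :=
  ∀ S ∈ P.parts, S.card = r

/-- The set `W(r,t,n)`: the weightings of `K_n` for which every `K_r`-factor contains a copy of
`K_r` of weight strictly less than `t` times `r choose 2`. -/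
def calW (r : ℕ) (t : ℝ) (n : ℕ) : Set (Sym2 (Fin n) → ℝ) :=
  {w | IsWeighting w ∧ ∀ P : Finpartition (univ : Finset (Fin n)), IsFactor r P →
    ∃ S ∈ P.parts, cliqueWt w S < t * (r.choose 2 : ℕ)}

/-- `δ(r,t,n)`: the supremum of the minimum weighted degree over `W(r,t,n)`. -/
noncomputable def deltaN (r : ℕ) (t : ℝ) (n : ℕ) : ℝ := sSup (minDeg '' calW r t n)

/-- `δ(r,t)`: the limsup of `δ(r,t,n)/n` as `n` tends to infinity through the multiples of `r`. -/
noncomputable def delta (r : ℕ) (t : ℝ) : ℝ :=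
  limsup (fun n : ℕ => deltaN r t n / n) (atTop ⊓ 𝓟 {n : ℕ | r ∣ n})

/-! ## Sums over edges -/

theorem two_clique {n : ℕ} (g : Sym2 (Fin n) → ℝ) (S : Finset (Fin n)) :
    ∑ u ∈ S, ∑ v ∈ S, (if u = v then 0 else g s(u, v)) = 2 * cliqueWt g S := by
  classical
  unfold cliqueWt
  rw [Finset.sum_sym2_filter_not_isDiag]
  have h1 : ∑ u ∈ S, ∑ v ∈ S, (if u = v then 0 else g s(u, v)) =
      ∑ p ∈ S.offDiag, g s(p.1, p.2) := by
    rw [← Finset.sum_product' (f := fun u v => if u = v then 0 else g s(u, v))]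
    have h2 : S.offDiag = (S ×ˢ S).filter (fun p => p.1 ≠ p.2) := by
      ext p
      simp [Finset.mem_offDiag, and_assoc]
    rw [h2, Finset.sum_filter]
    refine Finset.sum_congr rfl fun p _ => ?_
    by_cases hp : p.1 = p.2 <;> simp [hp]
  rw [h1, ← Finset.sum_filter_add_sum_filter_not S.offDiag (fun p => p.1 < p.2), two_mul]
  congr 1
  refine Finset.sum_nbij' Prod.swap Prod.swap ?_ ?_ ?_ ?_ ?_
  · intro p hp
    simp only [Finset.mem_filter, Finset.mem_offDiag, not_lt, Prod.fst_swap, Prod.snd_swap] at hp ⊢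
    exact ⟨⟨hp.1.2.1, hp.1.1, hp.1.2.2.symm⟩, lt_of_le_of_ne hp.2 hp.1.2.2.symm⟩
  · intro p hp
    simp only [Finset.mem_filter, Finset.mem_offDiag, not_lt, Prod.fst_swap, Prod.snd_swap] at hp ⊢
    exact ⟨⟨hp.1.2.1, hp.1.1, hp.1.2.2.symm⟩, hp.2.le⟩
  · intro p _
    exact Prod.swap_swap p
  · intro p _
    exact Prod.swap_swap p
  · intro p _
    rw [Prod.fst_swap, Prod.snd_swap, Sym2.eq_swap]

theorem cliqueWt_const {n : ℕ} (c : ℝ) (S : Finset (Fin n)) :
    cliqueWt (fun _ => c) S = c * (S.card.choose 2 : ℕ) := by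
  classical
  have h := two_clique (fun _ : Sym2 (Fin n) => c) S
  have h1 : ∑ u ∈ S, ∑ v ∈ S, (if u = v then (0 : ℝ) else c) = S.card * (S.card - 1) * c := by
    have h2 : ∀ u ∈ S, ∑ v ∈ S, (if u = v then (0 : ℝ) else c) = (S.card - 1) * c := by
      intro u hu
      have h3 : ∀ v ∈ S, (if u = v then (0 : ℝ) else c) = c - (if u = v then c else 0) := by
        intro v _
        by_cases huv : u = v <;> simp [huv]
      rw [Finset.sum_congr rfl h3, Finset.sum_sub_distrib, Finset.sum_const, nsmul_eq_mul,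
        Finset.sum_ite_eq, if_pos hu]
      ring
    rw [Finset.sum_congr rfl h2, Finset.sum_const, nsmul_eq_mul]
    ring
  rw [h1] at h
  rw [Nat.cast_choose_two]
  linarith

theorem cliqueWt_congr {n : ℕ} {g g' : Sym2 (Fin n) → ℝ} {S : Finset (Fin n)}
    (h : ∀ u ∈ S, ∀ v ∈ S, u ≠ v → g s(u, v) = g' s(u, v)) : cliqueWt g S = cliqueWt g' S := by
  classical
  have h1 := two_clique g S
  have h2 := two_clique g' S
  have h3 : ∑ u ∈ S, ∑ v ∈ S, (if u = v then 0 else g s(u, v)) =
      ∑ u ∈ S, ∑ v ∈ S, (if u = v then 0 else g' s(u, v)) := by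
    refine Finset.sum_congr rfl fun u hu => Finset.sum_congr rfl fun v hv => ?_
    by_cases huv : u = v
    · simp [huv]
    · simp [huv, h u hu v hv huv]
  linarith

theorem cliqueWt_aff {n : ℕ} (w : Sym2 (Fin n) → ℝ) (a : ℝ) (S : Finset (Fin n)) :
    cliqueWt (fun e => (1 - w e) * a) S = ((S.card.choose 2 : ℕ) - cliqueWt w S) * a := by
  have h1 := cliqueWt_const 1 S
  rw [one_mul] at h1
  rw [← h1]
  unfold cliqueWt
  rw [← Finset.sum_sub_distrib, Finset.sum_mul]

theorem wdeg_le {n : ℕ} {w : Sym2 (Fin n) → ℝ} (hw : IsWeighting w) (v : Fin n) :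
    wdeg w v ≤ n - 1 := by
  classical
  unfold wdeg
  have h1 : ∑ u ∈ univ.erase v, w s(v, u) ≤ ∑ u ∈ univ.erase v, (1 : ℝ) := by
    refine Finset.sum_le_sum fun u hu => (hw _ ?_).2
    rw [Sym2.mk_isDiag_iff]
    exact (Finset.ne_of_mem_erase hu).symm
  refine h1.trans (le_of_eq ?_)
  rw [Finset.sum_const, Finset.card_erase_of_mem (Finset.mem_univ _), Finset.card_univ,
    Fintype.card_fin, nsmul_eq_mul, mul_one, Nat.cast_sub (Nat.one_le_of_lt v.2), Nat.cast_one]

theorem minDeg_le_wdeg {n : ℕ} (w : Sym2 (Fin n) → ℝ) (v : Fin n) : minDeg w ≤ wdeg w v :=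
  ciInf_le (Set.finite_range _).bddBelow v

theorem minDeg_le {n : ℕ} {w : Sym2 (Fin n) → ℝ} (hw : IsWeighting w) : minDeg w ≤ n := by
  rcases Nat.eq_zero_or_pos n with rfl | hn
  · simp [minDeg, Real.iInf_of_isEmpty]
  · have h := wdeg_le hw ⟨0, hn⟩
    have h' := minDeg_le_wdeg w ⟨0, hn⟩
    linarith

/-! ## The upper bound -/

theorem upper {r : ℕ} (hr : 2 ≤ r) {t : ℝ} (ht1 : t ≤ 1) {ε : ℝ} (hε : 0 < ε) :
    ∃ n0 : ℕ, ∀ n : ℕ, n0 ≤ n → r ∣ n → ∀ w ∈ calW r t n,
      minDeg w ≤ (1 / r + (1 - 1 / r) * t + ε) * n := by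
  classical
  have hrR : (2 : ℝ) ≤ r := by exact_mod_cast hr
  have hr0 : (0 : ℝ) < r := by linarith
  rcases eq_or_lt_of_le ht1 with ht | ht
  · refine ⟨0, fun n _ _ w hw => (minDeg_le hw.1).trans ?_⟩
    rw [ht]
    have : (1 / (r : ℝ) + (1 - 1 / r) * 1 + ε) * n = n + ε * n := by ring
    rw [this]
    have : 0 ≤ ε * n := by positivity
    linarith
  have ht' : 0 < 1 - t := by linarith
  have hri : 1 / (r : ℝ) * r = 1 := one_div_mul_cancel hr0.ne'
  obtain ⟨n0, h0⟩ := factor hr (E := max 0 (1 - 1 / r - ε / (1 - t))) (le_max_left _ _) (by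
    have h1 : 0 < ε / (1 - t) := by positivity
    rcases max_cases (0 : ℝ) (1 - 1 / r - ε / (1 - t)) with ⟨h, _⟩ | ⟨h, _⟩
    · rw [h]; linarith
    · rw [h]
      have h2 : 0 < ε / (1 - t) * r := by positivity
      have h3 : (1 - 1 / (r : ℝ) - ε / (1 - t)) * r = r - 1 / r * r - ε / (1 - t) * r := by ring
      rw [h3, hri]
      linarith)
  refine ⟨n0, fun n hn hrn w hw => ?_⟩
  by_contra hcon
  push Not at hcon
  obtain ⟨hwt, hW⟩ := hw
  have hdf : Dfc (fun u v : Fin n => if u = v then 0 else (1 - w s(u, v)) * (1 / (1 - t)))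
      (max 0 (1 - 1 / r - ε / (1 - t))) := by
    refine ⟨fun u v => ?_, fun u v => ?_, fun v => if_pos rfl, fun u => ?_⟩
    · by_cases h : u = v
      · simp [h]
      · rw [if_neg h, if_neg (Ne.symm h), Sym2.eq_swap]
    · by_cases h : u = v
      · simp [h]
      · simp only [if_neg h]
        have h1 := (hwt s(u, v) (by rw [Sym2.mk_isDiag_iff]; exact h)).2
        have h2 : 0 ≤ 1 / (1 - t) := by positivity
        exact mul_nonneg (by linarith) h2
    · have h1 : ∑ v, (if u = v then 0 else (1 - w s(u, v)) * (1 / (1 - t))) =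
          ((n : ℝ) - 1 - wdeg w u) / (1 - t) := by
        rw [← Finset.add_sum_erase univ _ (Finset.mem_univ u), if_pos rfl, zero_add]
        have h2 : ∀ v ∈ univ.erase u, (if u = v then 0 else (1 - w s(u, v)) * (1 / (1 - t))) =
            (1 - w s(u, v)) * (1 / (1 - t)) := by
          intro v hv
          rw [if_neg (Finset.ne_of_mem_erase hv).symm]
        rw [Finset.sum_congr rfl h2, ← Finset.sum_mul, Finset.sum_sub_distrib, Finset.sum_const,
          Finset.card_erase_of_mem (Finset.mem_univ _), Finset.card_univ, Fintype.card_fin,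
          nsmul_eq_mul, mul_one, Nat.cast_sub (Nat.one_le_of_lt u.2), Nat.cast_one]
        unfold wdeg
        ring
      rw [h1, Fintype.card_fin]
      have h3 := minDeg_le_wdeg w u
      have hn0 : (0 : ℝ) ≤ n := Nat.cast_nonneg n
      refine le_trans ?_ (mul_le_mul_of_nonneg_right (le_max_right _ _) hn0)
      rw [div_le_iff₀ ht']
      have h4 : (1 - 1 / (r : ℝ) - ε / (1 - t)) * n * (1 - t) =
          (1 - 1 / r) * (1 - t) * n - ε / (1 - t) * (1 - t) * n := by ring
      rw [h4, div_mul_cancel₀ _ ht'.ne']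
      have h5 : (1 / (r : ℝ) + (1 - 1 / r) * t + ε) * n =
        n - (1 - 1 / r) * (1 - t) * n + ε * n := by ring
      rw [h5] at hcon
      linarith
  obtain ⟨M, hM, hm, hU⟩ := h0 n hn hrn _ hdf
  have hcard : ∀ S ∈ M, S.card = r := fun S hS => HG_card S (hM hS)
  obtain ⟨S, hS, hlt⟩ := hW
    { parts := M
      supIndep := by
        rw [Finset.supIndep_iff_pairwiseDisjoint]
        intro a ha b hb hab
        exact hm a ha b hb hab
      sup_parts := by
        rw [Finset.sup_eq_biUnion]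
        exact hU
      bot_notMem := by
        intro h
        have := hcard _ h
        simp only [Finset.bot_eq_empty, Finset.card_empty] at this
        omega } hcard
  have hS' : S ∈ M := hS
  have hg := (mem_HG.1 (hM hS')).2
  rw [two_clique (fun e => (1 - w e) * (1 / (1 - t))) S, cliqueWt_aff, hcard S hS'] at hg
  have hch : ((r.choose 2 : ℕ) : ℝ) = r * (r - 1) / 2 := Nat.cast_choose_two ℝ r
  have h6 : 2 * ((((r.choose 2 : ℕ) : ℝ) - cliqueWt w S) * (1 / (1 - t))) =
      2 * (((r.choose 2 : ℕ) : ℝ) - cliqueWt w S) / (1 - t) := by ring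
  rw [h6, div_le_iff₀ ht'] at hg
  have h7 : (r : ℝ) * (r - 1) * (1 - t) = 2 * ((r.choose 2 : ℕ) : ℝ) * (1 - t) := by
    rw [hch]; ring
  rw [h7] at hg
  linarith

/-! ## The lower bound -/

/-- the weighting of the lower bound: weight `1` for the edges meeting the first `m` vertices and
weight `t'` for all other edges -/
noncomputable def lw (n m : ℕ) (t' : ℝ) : Sym2 (Fin n) → ℝ := by
  classical
  exact fun e => if ∃ v ∈ e, v.val < m then 1 else t'

theorem card_small {n m : ℕ} (h : m ≤ n) :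
    ((univ : Finset (Fin n)).filter (fun v => v.val < m)).card = m := by
  have h1 : ((univ : Finset (Fin n)).filter (fun v => v.val < m)).image (fun v => v.val) =
      Finset.range m := by
    ext y
    simp only [Finset.mem_image, Finset.mem_filter, Finset.mem_univ, true_and, Finset.mem_range]
    constructor
    · rintro ⟨v, hv, rfl⟩
      exact hv
    · intro hy
      exact ⟨⟨y, lt_of_lt_of_le hy h⟩, hy, rfl⟩
  rw [← Finset.card_image_of_injective _ Fin.val_injective, h1, Finset.card_range]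

theorem lw_deg {n m : ℕ} {t' : ℝ} (h1 : t' ≤ 1) (hm : m ≤ n) (v : Fin n) :
    (m : ℝ) + ((n : ℝ) - m) * t' - 1 ≤ wdeg (lw n m t') v := by
  classical
  have h2 : ∑ u ∈ univ.erase v, (if u.val < m then (1 : ℝ) else t') ≤ wdeg (lw n m t') v := by
    unfold wdeg
    refine Finset.sum_le_sum fun u _ => ?_
    unfold lw
    by_cases hu : u.val < m
    · rw [if_pos hu, if_pos ⟨u, Sym2.mem_mk_right _ _, hu⟩]
    · rw [if_neg hu]
      split_ifs <;> linarith
  have h3 : ∑ u : Fin n, (if u.val < m then (1 : ℝ) else t') = m + ((n : ℝ) - m) * t' := by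
    have h4 : ∀ u : Fin n, (if u.val < m then (1 : ℝ) else t') =
        t' + (if u.val < m then (1 - t') else 0) := by
      intro u
      split_ifs <;> ring
    rw [Finset.sum_congr rfl (fun u _ => h4 u), Finset.sum_add_distrib, Finset.sum_const,
      ← Finset.sum_filter, Finset.sum_const, card_small hm, Finset.card_univ, Fintype.card_fin,
      nsmul_eq_mul, nsmul_eq_mul]
    ring
  have h5 : (if v.val < m then (1 : ℝ) else t') +
      ∑ u ∈ univ.erase v, (if u.val < m then (1 : ℝ) else t') = m + ((n : ℝ) - m) * t' := by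
    rw [← h3]
    exact Finset.add_sum_erase univ (fun u : Fin n => if u.val < m then (1 : ℝ) else t')
      (Finset.mem_univ v)
  have h6 : (if v.val < m then (1 : ℝ) else t') ≤ 1 := by
    split_ifs <;> linarith
  linarith

theorem lower {r : ℕ} (hr : 2 ≤ r) {t : ℝ} (ht0 : 0 < t) (ht1 : t ≤ 1) {k : ℕ} (hk : 1 ≤ k) :
    ∃ w ∈ calW r t (r * k), (1 / r + (1 - 1 / r) * t) * ((r * k : ℕ) : ℝ) - 2 ≤ minDeg w := by
  classical
  have hrR : (2 : ℝ) ≤ r := by exact_mod_cast hr
  have hr0 : (0 : ℝ) < r := by linarith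
  have hkR : (1 : ℝ) ≤ k := by exact_mod_cast hk
  have hnpos : 0 < r * k := Nat.mul_pos (by omega) hk
  have hkn : k ≤ r * k := Nat.le_mul_of_pos_left k (by omega)
  set n : ℕ := r * k with hn
  have hnR : (n : ℝ) = r * k := by rw [hn]; push_cast; ring
  have hn0 : (0 : ℝ) < n := by exact_mod_cast hnpos
  have hn1 : (1 : ℝ) ≤ n := by exact_mod_cast hnpos
  set t' : ℝ := t - t / n with ht'
  have htn : t / n ≤ t := div_le_self ht0.le hn1
  have htn0 : 0 < t / n := by positivity
  have h0 : 0 ≤ t' := by rw [ht']; linarith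
  have h1 : t' ≤ 1 := by rw [ht']; linarith
  have htt : t' < t := by rw [ht']; linarith
  refine ⟨lw n (k - 1) t', ⟨?_, ?_⟩, ?_⟩
  · intro e _
    unfold lw
    split_ifs
    · exact ⟨zero_le_one, le_rfl⟩
    · exact ⟨h0, h1⟩
  · intro P hP
    -- the number of parts is `k`
    have hpk : P.parts.card = k := by
      have h2 := P.sum_card_parts
      rw [Finset.sum_congr rfl (fun S hS => hP S hS), Finset.sum_const, smul_eq_mul,
        Finset.card_univ, Fintype.card_fin] at h2
      have h3 : r * P.parts.card = r * k := by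
        rw [mul_comm]
        exact h2.trans hn
      exact Nat.eq_of_mul_eq_mul_left (by omega) h3
    have hex : ∃ S ∈ P.parts, ∀ v ∈ S, ¬ v.val < k - 1 := by
      by_contra hcon
      push Not at hcon
      have : Nonempty (Fin n) := ⟨⟨0, hnpos⟩⟩
      choose! f hf1 hf2 using hcon
      have h3 : P.parts.card ≤
          ((univ : Finset (Fin n)).filter (fun v => v.val < k - 1)).card := by
        refine Finset.card_le_card_of_injOn f (fun S hS => ?_) ?_
        · rw [Finset.mem_coe, Finset.mem_filter]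
          exact ⟨Finset.mem_univ _, hf2 S hS⟩
        · intro S hS S' hS' hff
          by_contra hne
          have hd := P.disjoint hS hS' hne
          exact Finset.disjoint_left.1 hd (hf1 S hS) (by
            change f S ∈ S'
            rw [hff]
            exact hf1 S' hS')
      rw [hpk, card_small (by omega)] at h3
      omega
    obtain ⟨S, hS, hSv⟩ := hex
    refine ⟨S, hS, ?_⟩
    have h4 : cliqueWt (lw n (k - 1) t') S = cliqueWt (fun _ => t') S := by
      refine cliqueWt_congr fun u hu v hv _ => ?_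
      unfold lw
      rw [if_neg]
      rintro ⟨x, hx, hxk⟩
      rcases Sym2.mem_iff.1 hx with rfl | rfl
      · exact hSv _ hu hxk
      · exact hSv _ hv hxk
    rw [h4, cliqueWt_const, hP S hS]
    have h5 : (0 : ℝ) < (r.choose 2 : ℕ) := by
      exact_mod_cast Nat.choose_pos hr
    exact mul_lt_mul_of_pos_right htt h5
  · have : Nonempty (Fin n) := ⟨⟨0, hnpos⟩⟩
    refine le_ciInf fun v => le_trans ?_ (lw_deg h1 (by omega) v)
    rw [Nat.cast_sub hk, Nat.cast_one, ht']
    have h6 : t / n * n = t := div_mul_cancel₀ _ hn0.ne'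
    have h7 : (1 / (r : ℝ) + (1 - 1 / r) * t) * n = k + (n - k) * t := by
      have h8 : 1 / (r : ℝ) * n = k := by
        rw [hnR]
        field_simp
      have h9 : (1 / (r : ℝ) + (1 - 1 / r) * t) * n = 1 / (r : ℝ) * n + (n - 1 / (r : ℝ) * n) * t := by
        ring
      rw [h9, h8]
    rw [h7]
    have h10 : ((n : ℝ) - (k - 1)) * (t - t / n) =
        (n - k) * t + t - t / n * n + (k - 1) * (t / n) := by ring
    rw [h10, h6]
    have h11 : 0 ≤ ((k : ℝ) - 1) * (t / n) := mul_nonneg (by linarith) htn0.le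
    linarith

/-! ## The limit -/

theorem bdd (r : ℕ) (t : ℝ) (n : ℕ) : BddAbove (minDeg '' calW r t n) := by
  refine ⟨n, ?_⟩
  rintro _ ⟨w, hw, rfl⟩
  exact minDeg_le hw.1

theorem limit {r : ℕ} (hr : 2 ≤ r) {t : ℝ} (ht0 : 0 < t) (ht1 : t ≤ 1) :
    Tendsto (fun n : ℕ => deltaN r t n / n) (atTop ⊓ 𝓟 {n : ℕ | r ∣ n})
      (𝓝 (1 / r + (1 - 1 / r) * t)) := by
  rw [tendsto_order]
  refine ⟨fun a ha => ?_, fun a ha => ?_⟩
  · rw [eventually_inf_principal]
    obtain ⟨N, hN⟩ := exists_nat_gt (2 / (1 / (r : ℝ) + (1 - 1 / r) * t - a))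
    filter_upwards [eventually_ge_atTop (max N 1)] with n hn hrn
    obtain ⟨k, rfl⟩ := hrn
    have hnN : N ≤ r * k := (le_max_left _ _).trans hn
    have hn1 : 1 ≤ r * k := (le_max_right _ _).trans hn
    have hk : 1 ≤ k := by
      rcases Nat.eq_zero_or_pos k with h | h
      · rw [h] at hn1
        omega
      · exact h
    obtain ⟨w, hw, hd⟩ := lower hr ht0 ht1 hk
    have h1 : minDeg w ≤ deltaN r t (r * k) := le_csSup (bdd _ _ _) ⟨w, hw, rfl⟩
    have h2 : (0 : ℝ) < ((r * k : ℕ) : ℝ) := by exact_mod_cast hn1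
    have h3 : 0 < 1 / (r : ℝ) + (1 - 1 / r) * t - a := by linarith
    rw [lt_div_iff₀ h2]
    have h4 : 2 < (1 / (r : ℝ) + (1 - 1 / r) * t - a) * ((r * k : ℕ) : ℝ) := by
      rw [div_lt_iff₀ h3] at hN
      have h5 : (N : ℝ) ≤ ((r * k : ℕ) : ℝ) := by exact_mod_cast hnN
      have h6 := mul_le_mul_of_nonneg_right h5 h3.le
      linarith
    linarith
  · rw [eventually_inf_principal]
    obtain ⟨n0, hn0⟩ := upper hr ht1
      (show 0 < (a - (1 / (r : ℝ) + (1 - 1 / r) * t)) / 2 by linarith)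
    filter_upwards [eventually_ge_atTop (max n0 1)] with n hn hrn
    have hn0' : n0 ≤ n := (le_max_left _ _).trans hn
    have hn1 : 1 ≤ n := (le_max_right _ _).trans hn
    have h2 : (0 : ℝ) < (n : ℝ) := by exact_mod_cast hn1
    rw [div_lt_iff₀ h2]
    have h3 : deltaN r t n ≤ (1 / r + (1 - 1 / r) * t +
        (a - (1 / (r : ℝ) + (1 - 1 / r) * t)) / 2) * n := by
      have hne : (minDeg '' calW r t n).Nonempty := by
        obtain ⟨k, rfl⟩ := hrn
        have hk1 : 1 ≤ k := by
          rcases Nat.eq_zero_or_pos k with h | h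
          · rw [h] at hn1
            omega
          · exact h
        obtain ⟨w, hw, _⟩ := lower hr ht0 ht1 hk1
        exact ⟨_, w, hw, rfl⟩
      refine csSup_le hne ?_
      rintro _ ⟨w', hw', rfl⟩
      exact hn0 n hn0' hrn w' hw'
    refine lt_of_le_of_lt h3 (mul_lt_mul_of_pos_right ?_ h2)
    linarith

/-- The weighted Hajnal-Szemeredi threshold: for every integer `r ≥ 2` and every real `t ∈ (0,1]`,
`δ(r,t) = 1/r + (1 - 1/r) t`. -/
theorem result : ∀ r : ℕ, 2 ≤ r → ∀ t : ℝ, 0 < t → t ≤ 1 →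
    delta r t = 1 / (r : ℝ) + (1 - 1 / (r : ℝ)) * t := by
  intro r hr t ht0 ht1
  have : (atTop ⊓ 𝓟 {n : ℕ | r ∣ n} : Filter ℕ).NeBot := by
    rw [← frequently_mem_iff_neBot]
    rw [frequently_atTop]
    intro a
    exact ⟨r * a, Nat.le_mul_of_pos_left a (by omega), dvd_mul_right r a⟩
  exact (limit hr ht0 ht1).limsup_eq

end Pool.Agent.Results.MP_acd470_co.Threshold
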